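import Mathlib

/-!
# Project ET: package PRE (over Mathlib)
-/

set_option autoImplicit false

namespace Pool.Agent.P8H57.ET

/-- the upper half plane as the image of the plane -/
noncomputable def Phi (w : ℂ) : ℂ := (w.re : ℂ) + (Real.exp w.im : ℂ) * Complex.I

theorem phi_re (w : ℂ) : (Phi w).re = w.re := by simp [Phi, Complex.add_re, Complex.mul_re]

theorem phi_im (w : ℂ) : (Phi w).im = Real.exp w.im := by
  unfold Phi
  rw [Complex.add_im, Complex.ofReal_im, Complex.mul_im, Complex.ofReal_re, Complex.ofReal_im,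
    Complex.I_im, Complex.I_re]
  ring

theorem phi_cont : Continuous Phi := by
  unfold Phi
  fun_prop

theorem phi_inj : Function.Injective Phi := by
  intro a b h
  apply Complex.ext
  · rw [← phi_re a, ← phi_re b, h]
  · apply Real.exp_injective
    rw [← phi_im a, ← phi_im b, h]

theorem phi_surj (τ : ℂ) (h : 0 < τ.im) : Phi ((τ.re : ℂ) + (Real.log τ.im : ℂ) * Complex.I) = τ := by
  apply Complex.ext
  · rw [phi_re]; simp
  · rw [phi_im]; simp [Real.exp_log h]

/-- the upper half plane without a countable set -/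
theorem half_compl (C : Set ℂ) (hC : C.Countable) : IsPreconnected {τ : ℂ | 0 < τ.im ∧ τ ∉ C} := by
  have h1 : (Phi ⁻¹' C).Countable := hC.preimage_of_injOn phi_inj.injOn
  have hr : 1 < Module.rank ℝ ℂ := by
    rw [Complex.rank_real_complex]
    norm_num
  have h2 := (h1.isPathConnected_compl_of_one_lt_rank hr).isConnected.isPreconnected
  have h3 : {τ : ℂ | 0 < τ.im ∧ τ ∉ C} = Phi '' (Phi ⁻¹' C)ᶜ := by
    ext τ
    constructor
    · rintro ⟨h4, h5⟩
      refine ⟨(τ.re : ℂ) + (Real.log τ.im : ℂ) * Complex.I, ?_, phi_surj τ h4⟩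
      show Phi _ ∉ C
      rw [phi_surj τ h4]
      exact h5
    · rintro ⟨w, hw, rfl⟩
      refine ⟨?_, hw⟩
      rw [phi_im]
      exact Real.exp_pos _
  rw [h3]
  exact h2.image _ phi_cont.continuousOn

theorem pre_core (z : ℂ) : IsPreconnected {τ : ℂ | 0 < τ.im ∧ ∀ m n : ℤ, z ≠ m + n * τ} := by
  by_cases hz : ∃ m : ℤ, z = m
  · obtain ⟨m, hm⟩ := hz
    have : {τ : ℂ | 0 < τ.im ∧ ∀ m n : ℤ, z ≠ m + n * τ} = ∅ := by
      ext τ
      simp only [Set.mem_ofPred_eq, Set.mem_empty_iff_false, iff_false, not_and]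
      intro _ h
      exact h m 0 (by rw [hm]; simp)
    rw [this]
    exact isPreconnected_empty
  · set C : Set ℂ := Set.range (fun p : ℤ × ℤ => (z - p.1) / p.2) with hC
    have hCc : C.Countable := Set.countable_range _
    have h1 : {τ : ℂ | 0 < τ.im ∧ ∀ m n : ℤ, z ≠ m + n * τ} =
        {τ : ℂ | 0 < τ.im ∧ τ ∉ (C ∩ {τ : ℂ | ∃ m n : ℤ, z = m + n * τ})} := by
      ext τ
      constructor
      · rintro ⟨h2, h3⟩
        refine ⟨h2, fun h4 => ?_⟩
        obtain ⟨m, n, h5⟩ := h4.2
        exact h3 m n h5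
      · rintro ⟨h2, h3⟩
        refine ⟨h2, fun m n h4 => h3 ⟨?_, m, n, h4⟩⟩
        have hn : (n : ℂ) ≠ 0 := by
          intro h5
          apply hz
          exact ⟨m, by rw [h4, h5]; ring⟩
        refine ⟨(m, n), ?_⟩
        show (z - m) / n = τ
        rw [div_eq_iff hn, h4]
        ring
    rw [h1]
    exact half_compl _ (hCc.mono Set.inter_subset_left)

end Pool.Agent.P8H57.ET
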