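import Pool.Agent.P8H10.ET.StmF
import Pool.Agent.P8H57.ET.PreCore

/-!
# Project ET: package PRE
-/

set_option autoImplicit false

namespace Pool.Agent.P8H57.ET

open Pool.Agent.P8H10.ET

theorem pre : S_PRE := fun z => pre_core z

end Pool.Agent.P8H57.ET
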