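import Pool.Agent.P8H10.ET.StmF

/-!
# Project ET: package TRM
-/

set_option autoImplicit false

namespace Pool.Agent.P8H57.ET

open Pool.Agent.P8H10.ET
open scoped PeriodPair

/-- the change of the basis for `τ + 1` -/
def shear : ℤ × ℤ ≃ ℤ × ℤ where
  toFun p := (p.1 + p.2, p.2)
  invFun p := (p.1 - p.2, p.2)
  left_inv p := by simp
  right_inv p := by simp

/-- the change of the basis for `-1 / (τ + d)` -/
def turn (d : ℤ) : ℤ × ℤ ≃ ℤ × ℤ where
  toFun p := (p.1 * d - p.2, p.1)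
  invFun p := (p.2, p.2 * d - p.1)
  left_inv p := by simp
  right_inv p := by simp

theorem EP_add_one (z τ : ℂ) : EP z (τ + 1) = EP z τ := by
  unfold EP
  rw [← shear.tsum_eq (fun p : ℤ × ℤ =>
    1 / (z - ((p.1 : ℂ) + p.2 * τ)) ^ 2 - 1 / ((p.1 : ℂ) + p.2 * τ) ^ 2)]
  apply tsum_congr
  intro p
  have h : (p.1 : ℂ) + p.2 * (τ + 1) = (((shear p).1 : ℤ) : ℂ) + ((shear p).2 : ℤ) * τ := by
    simp only [shear, Equiv.coe_fn_mk]
    push_cast
    ring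
  rw [h]

theorem EZ_add_one (z τ : ℂ) : EZ z (τ + 1) = EZ z τ := by
  unfold EZ
  rw [← shear.tsum_eq (fun p : ℤ × ℤ =>
    1 / (z - ((p.1 : ℂ) + p.2 * τ)) + 1 / ((p.1 : ℂ) + p.2 * τ) + z / ((p.1 : ℂ) + p.2 * τ) ^ 2)]
  apply tsum_congr
  intro p
  have h : (p.1 : ℂ) + p.2 * (τ + 1) = (((shear p).1 : ℤ) : ℂ) + ((shear p).2 : ℤ) * τ := by
    simp only [shear, Equiv.coe_fn_mk]
    push_cast
    ring
  rw [h]

theorem turn_eq (τ : ℂ) (d : ℤ) (hs : τ + d ≠ 0) (p : ℤ × ℤ) :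
    (p.1 : ℂ) + p.2 * (-1 / (τ + d)) =
      ((((turn d p).1 : ℤ) : ℂ) + ((turn d p).2 : ℤ) * τ) / (τ + d) := by
  simp only [turn, Equiv.coe_fn_mk]
  push_cast
  field_simp
  ring

theorem EP_turn (z τ : ℂ) (d : ℤ) (hs : τ + d ≠ 0) :
    EP z (-1 / (τ + d)) = (τ + d) ^ 2 * EP ((τ + d) * z) τ := by
  unfold EP
  rw [← (turn d).tsum_eq (fun p : ℤ × ℤ =>
    1 / ((τ + d) * z - ((p.1 : ℂ) + p.2 * τ)) ^ 2 - 1 / ((p.1 : ℂ) + p.2 * τ) ^ 2),
    ← tsum_mul_left]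
  apply tsum_congr
  intro p
  rw [turn_eq τ d hs p]
  generalize (((turn d p).1 : ℤ) : ℂ) + ((turn d p).2 : ℤ) * τ = w
  generalize τ + (d : ℂ) = s at hs
  have h1 : z - w / s = (s * z - w) / s := by field_simp
  rw [h1, div_pow, div_pow, one_div_div, one_div_div]
  ring

theorem EZ_turn (z τ : ℂ) (d : ℤ) (hs : τ + d ≠ 0) :
    EZ z (-1 / (τ + d)) = (τ + d) * EZ ((τ + d) * z) τ := by
  unfold EZ
  rw [← (turn d).tsum_eq (fun p : ℤ × ℤ =>
    1 / ((τ + d) * z - ((p.1 : ℂ) + p.2 * τ)) + 1 / ((p.1 : ℂ) + p.2 * τ) +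
      (τ + d) * z / ((p.1 : ℂ) + p.2 * τ) ^ 2),
    ← tsum_mul_left]
  apply tsum_congr
  intro p
  rw [turn_eq τ d hs p]
  generalize (((turn d p).1 : ℤ) : ℂ) + ((turn d p).2 : ℤ) * τ = w
  generalize τ + (d : ℂ) = s at hs
  have h1 : z - w / s = (s * z - w) / s := by field_simp
  rw [h1, div_pow, one_div_div, one_div_div, div_div_eq_mul_div]
  ring

/-- the lattice `ℤ + ℤ τ` -/
noncomputable def LL (τ : ℂ) (hτ : τ.im ≠ 0) : PeriodPair where
  ω₁ := 1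
  ω₂ := τ
  indep := by
    rw [LinearIndependent.pair_iff]
    intro s t h
    have h1 := congrArg Complex.im h
    have h2 := congrArg Complex.re h
    simp at h1 h2
    rcases h1 with h1 | h1
    · subst h1
      simp at h2
      exact ⟨h2, rfl⟩
    · exact absurd h1 hτ

theorem EZ_eq (z τ : ℂ) (hτ : τ.im ≠ 0) : H667R3.zeta (LL τ hτ) z = EZ z τ := by
  unfold H667R3.zeta EZ
  rw [← (LL τ hτ).latticeEquivProd.symm.toEquiv.tsum_eq
    (fun l : (LL τ hτ).lattice => (1 / (z - l) + 1 / (l : ℂ) + z / (l : ℂ) ^ 2))]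
  apply tsum_congr
  intro p
  have h1 : (((LL τ hτ).latticeEquivProd.symm.toEquiv p : (LL τ hτ).lattice) : ℂ) =
      p.1 * (LL τ hτ).ω₁ + p.2 * (LL τ hτ).ω₂ := (LL τ hτ).latticeEquiv_symm_apply p
  have h2 : (p.1 : ℂ) * (LL τ hτ).ω₁ + p.2 * (LL τ hτ).ω₂ = (p.1 : ℂ) + p.2 * τ := by
    show (p.1 : ℂ) * 1 + p.2 * τ = _
    ring
  rw [h1, h2]

theorem eta_one (τ : ℂ) (hτ : τ.im ≠ 0) : H667R3.eta (LL τ hτ) 1 = EH τ := by
  unfold H667R3.eta EH
  rw [EZ_eq, EZ_eq]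
  rfl

theorem EH_turn (τ : ℂ) (hτ : 0 < τ.im) : ∃ c₀ : ℂ, c₀ ≠ 0 ∧ ∀ d : ℤ,
    EH (-1 / (τ + d)) = (τ + d) ^ 2 * EH τ - c₀ * (τ + d) := by
  have hτ0 : τ.im ≠ 0 := hτ.ne'
  set L := LL τ hτ0 with hL
  obtain ⟨n, hn, hleg⟩ := legendre L
  have w1 : L.ω₁ = 1 := rfl
  have w2 : L.ω₂ = τ := rfl
  rw [w1, w2, one_mul] at hleg
  refine ⟨-(n * (2 * Real.pi * Complex.I)), ?_, fun d => ?_⟩
  · rw [neg_ne_zero]
    refine mul_ne_zero (by exact_mod_cast hn) ?_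
    exact Complex.two_pi_I_ne_zero
  · have hs : τ + (d : ℂ) ≠ 0 := by
      intro h
      have h1 := congrArg Complex.im h
      simp at h1
      exact hτ0 h1
    have m1 : (1 : ℂ) ∈ L.lattice := by
      have := L.ω₁_mem_lattice
      rwa [w1] at this
    have m2 : τ ∈ L.lattice := by
      have := L.ω₂_mem_lattice
      rwa [w2] at this
    have m3 : (d : ℂ) * 1 ∈ L.lattice := by
      have := L.lattice.smul_mem d m1
      rwa [zsmul_eq_mul] at this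
    have m4 : τ + (d : ℂ) * 1 ∈ L.lattice := add_mem m2 m3
    have hhalf : (τ + (d : ℂ)) * (1 / 2) ∉ L.lattice := by
      intro h
      obtain ⟨a, b, hab⟩ := PeriodPair.mem_lattice.1 h
      rw [w1, w2] at hab
      have h1 := congrArg Complex.im hab
      simp at h1
      have h2 : ((2 * b - 1 : ℤ) : ℝ) * τ.im = 0 := by
        push_cast
        linear_combination 2 * h1
      rcases mul_eq_zero.1 h2 with h3 | h3
      · have h4 : (2 * b - 1 : ℤ) = 0 := by exact_mod_cast h3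
        omega
      · exact hτ0 h3
    have e1 := H667R3.zeta_add_coe L hhalf m4
    have e2 : H667R3.eta L (τ + (d : ℂ) * 1) = H667R3.eta L τ + d * EH τ := by
      rw [H667R3.eta_add L m2 m3, H667R3.eta_zsmul L m1, eta_one]
    have e3 : H667R3.eta L τ = τ * EH τ + n * (2 * Real.pi * Complex.I) := by
      rw [← eta_one τ hτ0]
      linear_combination hleg
    unfold EH at *
    rw [EZ_turn _ τ d hs, EZ_turn _ τ d hs]
    rw [EZ_eq, EZ_eq] at e1
    rw [e2, e3] at e1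
    have e4 : (τ + (d : ℂ)) * (1 / 2) + (τ + (d : ℂ) * 1) = (τ + (d : ℂ)) * (1 / 2 + 1) := by ring
    rw [e4] at e1
    linear_combination (τ + (d : ℂ)) * e1

theorem trm : S_TRM := by
  refine ⟨EP_add_one, fun τ _ => ?_, fun z τ d hτ => ?_, EH_turn⟩
  · unfold EH
    rw [EZ_add_one, EZ_add_one]
  · refine EP_turn z τ d ?_
    intro h
    have h1 := congrArg Complex.im h
    simp at h1
    exact hτ.ne' h1

end Pool.Agent.P8H57.ET
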